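import Pool.Agent.Lib.MP_613bd6_al.Mats

namespace Pool.Agent.Lib.MP_613bd6_al

open Equiv

variable {n : ℕ} {R : Type*} [Ring R] [Algebra K R]

/-- quadratic relation -/
def Quad (n : ℕ) (z : K) (t : ℕ → R) : Prop :=
  ∀ i, 1 ≤ i → i < n → t i * t i = 1 + z • t i

lemma Quad.mono {t : ℕ → R} {z : K} (h : Quad n z t) {r : ℕ} (hr : r ≤ n) : Quad r z t :=
  fun i h1 h2 => h i h1 (by omega)

lemma swap_mul_ne (σ : Perm (Fin n)) (a b : Fin n) (h : a.1 + 1 = b.1) : swap a b * σ ≠ σ := by
  intro hh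
  have : swap a b = 1 := by simpa using hh
  rw [swap_eq_one_iff] at this
  rw [this] at h; omega

lemma mul_swap_ne (σ : Perm (Fin n)) (a b : Fin n) (h : a.1 + 1 = b.1) : σ * swap a b ≠ σ := by
  intro hh
  have : swap a b = 1 := by simpa using hh
  rw [swap_eq_one_iff] at this
  rw [this] at h; omega

lemma sym_left {t : ℕ → R} {z : K} (ht : Braid n t) (hq : Quad n z t) (x : K)
    (hx : x * x = 1 + x * z) (S : Finset (Perm (Fin n))) (a b : Fin n) (h : a.1 + 1 = b.1)
    (hS : ∀ σ ∈ S, swap a b * σ ∈ S) :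
    t b.1 * ∑ σ ∈ S, x ^ inv σ • W t σ = x • ∑ σ ∈ S, x ^ inv σ • W t σ := by
  rw [← sub_eq_zero, Finset.mul_sum, Finset.smul_sum, ← Finset.sum_sub_distrib]
  have key : ∀ σ : Perm (Fin n), σ⁻¹ a < σ⁻¹ b →
      (t b.1 * (x ^ inv σ • W t σ) - x • (x ^ inv σ • W t σ)) +
      (t b.1 * (x ^ inv (swap a b * σ) • W t (swap a b * σ)) -
        x • (x ^ inv (swap a b * σ) • W t (swap a b * σ))) = 0 := by
    intro σ hl
    rw [inv_swap_mul σ a b h hl, W_swap_mul ht σ a b h hl]
    simp only [mul_smul_comm, ← mul_assoc, hq b.1 (by omega) b.2, add_mul, one_mul, smul_mul_assoc,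
      smul_add, smul_smul]
    have : x * x ^ (inv σ + 1) = x ^ inv σ + x ^ (inv σ + 1) * z := by
      rw [pow_succ]; linear_combination (x ^ inv σ) * hx
    rw [this, add_smul, pow_succ, mul_comm x]
    abel
  apply Finset.sum_involution (fun σ _ => swap a b * σ)
  · intro σ _
    rcases lt_or_gt_adj σ⁻¹ a b h with h2 | h2
    · exact key σ h2
    · have := key (swap a b * σ) (by
        rw [inv_swap_mul_apply, inv_swap_mul_apply, swap_apply_left, swap_apply_right]; exact h2)
      rw [← mul_assoc, swap_mul_self, one_mul, add_comm] at this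
      exact this
  · intro σ _ _
    exact swap_mul_ne σ a b h
  · exact hS
  · intro σ _
    rw [← mul_assoc, swap_mul_self, one_mul]

lemma sym_right {t : ℕ → R} {z : K} (ht : Braid n t) (hq : Quad n z t) (x : K)
    (hx : x * x = 1 + x * z) (S : Finset (Perm (Fin n))) (a b : Fin n) (h : a.1 + 1 = b.1)
    (hS : ∀ σ ∈ S, σ * swap a b ∈ S) :
    (∑ σ ∈ S, x ^ inv σ • W t σ) * t b.1 = x • ∑ σ ∈ S, x ^ inv σ • W t σ := by
  rw [← sub_eq_zero, Finset.sum_mul, Finset.smul_sum, ← Finset.sum_sub_distrib]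
  have key : ∀ σ : Perm (Fin n), σ a < σ b →
      ((x ^ inv σ • W t σ) * t b.1 - x • (x ^ inv σ • W t σ)) +
      ((x ^ inv (σ * swap a b) • W t (σ * swap a b)) * t b.1 -
        x • (x ^ inv (σ * swap a b) • W t (σ * swap a b))) = 0 := by
    intro σ hl
    rw [inv_mul_swap σ a b h hl, W_mul_swap ht σ a b h hl]
    simp only [mul_smul_comm, mul_assoc, hq b.1 (by omega) b.2, mul_add, mul_one, smul_mul_assoc,
      smul_add, smul_smul]
    have : x * x ^ (inv σ + 1) = x ^ inv σ + x ^ (inv σ + 1) * z := by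
      rw [pow_succ]; linear_combination (x ^ inv σ) * hx
    rw [this, add_smul, pow_succ, mul_comm x]
    abel
  apply Finset.sum_involution (fun σ _ => σ * swap a b)
  · intro σ _
    rcases lt_or_gt_adj σ a b h with h2 | h2
    · exact key σ h2
    · have := key (σ * swap a b) (by
        rw [Perm.mul_apply, Perm.mul_apply, swap_apply_left, swap_apply_right]; exact h2)
      rw [mul_assoc, swap_mul_self, mul_one, add_comm] at this
      exact this
  · intro σ _ _
    exact mul_swap_ne σ a b h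
  · exact hS
  · intro σ _
    rw [mul_assoc, swap_mul_self, mul_one]

/-- minimal coset representatives for the two-block Young subgroup cut at `c` -/
def InD (c : ℕ) (d : Perm (Fin n)) : Prop :=
  ∀ a b : Fin n, a.1 + 1 = b.1 → b.1 ≠ c → d a < d b

lemma not_InD {c : ℕ} {d : Perm (Fin n)} (hd : InD c d) (a b : Fin n) (h : a.1 + 1 = b.1)
    (hn : ¬ InD c (swap a b * d)) :
    ∃ a' b' : Fin n, a'.1 + 1 = b'.1 ∧ b'.1 ≠ c ∧ d a' = a ∧ d b' = b := by
  unfold InD at hn
  push Not at hn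
  obtain ⟨a', b', h1, h2, h3⟩ := hn
  have h4 := hd a' b' h1 h2
  refine ⟨a', b', h1, h2, ?_⟩
  simp only [Perm.mul_apply, Fin.le_def, Fin.lt_def, swap_val] at h3 h4
  simp only [Fin.ext_iff]
  split_ifs at h3 <;> omega

omit [Algebra K R] in
lemma W_cross {t : ℕ → R} (ht : Braid n t) (d : Perm (Fin n)) (a b a' b' : Fin n)
    (h : a.1 + 1 = b.1) (h' : a'.1 + 1 = b'.1) (ha : d a' = a) (hb : d b' = b) :
    t b.1 * W t d = W t d * t b'.1 := by
  have e1 : d⁻¹ a = a' := by rw [← ha]; simp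
  have e2 : d⁻¹ b = b' := by rw [← hb]; simp
  rw [← W_swap_mul ht d a b h (by rw [e1, e2, Fin.lt_def]; omega),
    ← W_mul_swap ht d a' b' h' (by rw [ha, hb, Fin.lt_def]; omega), swap_mul_eq_mul_swap, e1, e2]

open Classical in
/-- the relative norm -/
noncomputable def Z (t : ℕ → R) (n c : ℕ) (A : R) : R :=
  ∑ d : Perm (Fin n) with InD c d, W t d * A * W t d⁻¹

lemma Z_comm {t : ℕ → R} {z : K} (ht : Braid n t) (hq : Quad n z t) (c : ℕ) (A : R)
    (hA : ∀ i, 1 ≤ i → i < n → i ≠ c → t i * A = A * t i) (i : ℕ) (h1 : 1 ≤ i) (h2 : i < n) :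
    t i * Z t n c A = Z t n c A * t i := by
  classical
  obtain ⟨a, b, h, rfl⟩ := exists_adj i ⟨h1, h2⟩
  unfold Z
  rw [← sub_eq_zero, Finset.sum_mul, Finset.mul_sum, ← Finset.sum_sub_distrib]
  have key : ∀ σ : Perm (Fin n), σ⁻¹ a < σ⁻¹ b →
      (t b.1 * (W t σ * A * W t σ⁻¹) - (W t σ * A * W t σ⁻¹) * t b.1) +
      (t b.1 * (W t (swap a b * σ) * A * W t (swap a b * σ)⁻¹) -
        (W t (swap a b * σ) * A * W t (swap a b * σ)⁻¹) * t b.1) = 0 := by
    intro σ hl
    rw [W_swap_mul ht σ a b h hl, mul_inv_rev, swap_inv, W_mul_swap ht σ⁻¹ a b h hl]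
    set B := W t σ * A * W t σ⁻¹ with hB
    have e1 : t b.1 * W t σ * A * (W t σ⁻¹ * t b.1) = t b.1 * B * t b.1 := by
      simp only [hB, mul_assoc]
    rw [e1]
    have e2 : t b.1 * (t b.1 * B * t b.1) = (t b.1 * t b.1) * B * t b.1 := by
      simp only [mul_assoc]
    have e3 : (t b.1 * B * t b.1) * t b.1 = t b.1 * B * (t b.1 * t b.1) := by
      simp only [mul_assoc]
    rw [e2, e3, hq b.1 h1 h2]
    simp only [add_mul, mul_add, one_mul, mul_one, smul_mul_assoc, mul_smul_comm]
    abel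
  have fix : ∀ σ : Perm (Fin n), InD c σ → ¬ InD c (swap a b * σ) →
      (t b.1 * (W t σ * A * W t σ⁻¹) - (W t σ * A * W t σ⁻¹) * t b.1) = 0 := by
    intro σ hσ hn
    obtain ⟨a', b', h', hc, ha, hb⟩ := not_InD hσ a b h hn
    have e1 := W_cross ht σ a b a' b' h h' ha hb
    have e2 := W_cross ht σ⁻¹ a' b' a b h' h (by rw [← ha]; simp) (by rw [← hb]; simp)
    have e3 := hA b'.1 (by omega) b'.2 hc
    rw [sub_eq_zero, ← mul_assoc, ← mul_assoc, e1, mul_assoc _ _ A, e3, mul_assoc _ _ (t b.1),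
      ← e2]
    simp only [mul_assoc]
  apply Finset.sum_involution (fun σ _ => if InD c (swap a b * σ) then swap a b * σ else σ)
  · intro σ hσ
    rw [Finset.mem_filter] at hσ
    split_ifs with hh
    · rcases lt_or_gt_adj σ⁻¹ a b h with h2 | h2
      · exact key σ h2
      · have := key (swap a b * σ) (by
          rw [inv_swap_mul_apply, inv_swap_mul_apply, swap_apply_left, swap_apply_right]; exact h2)
        rw [← mul_assoc (swap a b) (swap a b), swap_mul_self, one_mul, add_comm] at this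
        exact this
    · rw [fix σ hσ.2 hh, add_zero]
  · intro σ hσ hne
    rw [Finset.mem_filter] at hσ
    split_ifs with hh
    · exact swap_mul_ne σ a b h
    · exact absurd (fix σ hσ.2 hh) hne
  · intro σ hσ
    rw [Finset.mem_filter] at hσ ⊢
    refine ⟨Finset.mem_univ _, ?_⟩
    split_ifs with hh
    · exact hh
    · exact hσ.2
  · intro σ hσ
    rw [Finset.mem_filter] at hσ
    by_cases hh : InD c (swap a b * σ)
    · simp only [if_pos hh]
      rw [← mul_assoc, swap_mul_self, one_mul, if_pos hσ.2]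
    · simp only [if_neg hh]

/-- the length filtration -/
noncomputable def Fil (t : ℕ → R) (n r : ℕ) : Submodule K R :=
  Submodule.span K {x | ∃ y : Perm (Fin n), inv y < r ∧ x = W t y}

lemma Fil_mono (t : ℕ → R) {r r' : ℕ} (h : r ≤ r') : Fil t n r ≤ Fil t n r' := by
  apply Submodule.span_mono
  rintro x ⟨y, h1, h2⟩
  exact ⟨y, by omega, h2⟩

lemma W_mem_Fil (t : ℕ → R) {r : ℕ} (y : Perm (Fin n)) (h : inv y < r) : W t y ∈ Fil t n r :=
  Submodule.subset_span ⟨y, h, rfl⟩

lemma mul_mem_Fil {t : ℕ → R} {z : K} (ht : Braid n t) (hq : Quad n z t) (i : ℕ) (h1 : 1 ≤ i)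
    (h2 : i < n) {r : ℕ} {x : R} (hx : x ∈ Fil t n r) : t i * x ∈ Fil t n (r + 1) := by
  obtain ⟨a, b, h, rfl⟩ := exists_adj i ⟨h1, h2⟩
  induction hx using Submodule.span_induction with
  | mem x hx =>
    obtain ⟨y, hy, rfl⟩ := hx
    rcases lt_or_gt_adj y⁻¹ a b h with h3 | h3
    · rw [← W_swap_mul ht y a b h h3]
      exact W_mem_Fil t _ (by rw [inv_swap_mul y a b h h3]; omega)
    · have e := W_swap_mul' ht y a b h h3
      have : t b.1 * W t y = W t (swap a b * y) + z • W t y := by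
        conv_lhs => rw [e, ← mul_assoc, hq b.1 h1 h2, add_mul, one_mul, smul_mul_assoc, ← e]
      rw [this]
      have := inv_swap_mul' y a b h h3
      exact Submodule.add_mem _ (W_mem_Fil t _ (by omega))
        (Submodule.smul_mem _ _ (W_mem_Fil t _ (by omega)))
  | zero => simp
  | add x y _ _ hx hy => rw [mul_add]; exact Submodule.add_mem _ hx hy
  | smul c x _ hx => rw [mul_smul_comm]; exact Submodule.smul_mem _ _ hx

lemma prod_mem_Fil {t : ℕ → R} {z : K} (ht : Braid n t) (hq : Quad n z t) (l : List ℕ)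
    (hl : ∀ i ∈ l, 1 ≤ i ∧ i < n) : (l.map t).prod ∈ Fil t n (l.length + 1) ∧
      (l.map fun i => t i - z • (1 : R)).prod - (l.map t).prod ∈ Fil t n l.length := by
  induction l with
  | nil =>
    refine ⟨?_, by simp⟩
    have := W_mem_Fil t (1 : Perm (Fin n)) (r := 1) (by simp [inv_one])
    rw [W_one ht] at this
    simpa using this
  | cons i l ih =>
    obtain ⟨i1, i2⟩ := ih (fun j hj => hl j (List.mem_cons_of_mem _ hj))
    obtain ⟨h1, h2⟩ := hl i List.mem_cons_self
    simp only [List.map_cons, List.prod_cons, List.length_cons]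
    refine ⟨mul_mem_Fil ht hq i h1 h2 i1, ?_⟩
    set P := (l.map t).prod
    set P' := (l.map fun i => t i - z • (1 : R)).prod
    have : (t i - z • (1 : R)) * P' - t i * P = t i * (P' - P) - z • ((P' - P) + P) := by
      simp only [sub_mul, mul_sub, smul_mul_assoc, one_mul, sub_add_cancel]
      abel
    rw [this]
    exact Submodule.sub_mem _ (mul_mem_Fil ht hq i h1 h2 i2) (Submodule.smul_mem _ _
      (Submodule.add_mem _ (Fil_mono t (by omega) i2) i1))

lemma prod_mul_inv {t : ℕ → R} {z : K} (hq : Quad n z t) (l : List ℕ)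
    (hl : ∀ i ∈ l, 1 ≤ i ∧ i < n) :
    (l.map t).prod * (l.reverse.map fun i => t i - z • (1 : R)).prod = 1 ∧
    (l.reverse.map fun i => t i - z • (1 : R)).prod * (l.map t).prod = 1 := by
  induction l with
  | nil => simp
  | cons i l ih =>
    obtain ⟨i1, i2⟩ := ih (fun j hj => hl j (List.mem_cons_of_mem _ hj))
    obtain ⟨h1, h2⟩ := hl i List.mem_cons_self
    have e1 : t i * (t i - z • (1 : R)) = 1 := by
      rw [mul_sub, hq i h1 h2]; simp
    have e2 : (t i - z • (1 : R)) * t i = 1 := by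
      rw [sub_mul, hq i h1 h2]; simp
    simp only [List.map_cons, List.prod_cons, List.reverse_cons, List.map_append, List.prod_append,
      List.map_nil, List.prod_nil, mul_one]
    constructor
    · rw [mul_assoc, ← mul_assoc (l.map t).prod, i1, one_mul, e1]
    · rw [mul_assoc, ← mul_assoc _ (t i), e2, one_mul, i2]

lemma ring_inverse_prod {t : ℕ → R} {z : K} (hq : Quad n z t) (l : List ℕ)
    (hl : ∀ i ∈ l, 1 ≤ i ∧ i < n) :
    Ring.inverse (l.map t).prod = (l.reverse.map fun i => t i - z • (1 : R)).prod := by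
  obtain ⟨h1, h2⟩ := prod_mul_inv hq l hl
  exact Ring.inverse_unit ⟨_, _, h1, h2⟩

end Pool.Agent.Lib.MP_613bd6_al
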