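import Pool.Agent.Lib.MP_613bd6_al.Alg

namespace Pool.Agent.Lib.MP_613bd6_al

open Equiv

variable {n : ℕ} {R : Type*} [Ring R] [Algebra K R]

/-- the abstract situation -/
structure Setup (n N : ℕ) (t : ℕ → R) (z x y : K) (J : Set ℕ) (e A : R) (γ : Perm (Fin n)) :
    Prop where
  ht : Braid n t
  hq : Quad n z t
  hxy : x ≠ y
  el : ∀ i, 1 ≤ i → i < n → i ∈ J → t i * e = x • e
  er : ∀ i, 1 ≤ i → i < n → i ∈ J → e * t i = x • e
  al : ∀ i, 1 ≤ i → i < n → i ≤ N → t i * A = y • A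
  ar : ∀ i, 1 ≤ i → i < n → i ≤ N → A * t i = y • A
  ac : ∀ i, N + 2 ≤ i → i < n → t i * A = A * t i
  hD : InD (N + 1) γ
  hU : ∀ d : Perm (Fin n), InD (N + 1) d →
    (∀ b : Fin n, 1 ≤ b.1 → b.1 ∈ J → N < (d⁻¹ b).1) → d = γ

variable {N : ℕ} {t : ℕ → R} {z x y : K} {J : Set ℕ} {e A : R} {γ : Perm (Fin n)}

lemma Setup.vanish (S : Setup n N t z x y J e A γ) (d : Perm (Fin n)) (hd : InD (N + 1) d)
    (a b : Fin n) (h : a.1 + 1 = b.1) (hb : b.1 ∈ J) (hl : d⁻¹ a < d⁻¹ b) (hN : (d⁻¹ b).1 ≤ N) :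
    A * W t d⁻¹ * e = 0 := by
  have mono := lt_of_adj' d 0 N (fun a b h1 _ h3 => hd a b h1 (by omega))
  have h' : (d⁻¹ a).1 + 1 = (d⁻¹ b).1 := by
    by_contra hne
    rw [Fin.lt_def] at hl
    have hb2 := (d⁻¹ b).2
    have h1 := mono (d⁻¹ a) ⟨(d⁻¹ a).1 + 1, by omega⟩ (by rw [Fin.lt_def]; simp) (by omega)
      (by simp only; omega)
    have h2 := mono ⟨(d⁻¹ a).1 + 1, by omega⟩ (d⁻¹ b) (by rw [Fin.lt_def]; simp only; omega)
      (by omega) hN
    have e1 : d (d⁻¹ a) = a := by simp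
    have e2 : d (d⁻¹ b) = b := by simp
    rw [e1, Fin.lt_def] at h1
    rw [e2, Fin.lt_def] at h2
    omega
  have e1 := W_cross S.ht d⁻¹ (d⁻¹ a) (d⁻¹ b) a b h' h rfl rfl
  have e2 : y • (A * W t d⁻¹ * e) = x • (A * W t d⁻¹ * e) := by
    calc y • (A * W t d⁻¹ * e) = (A * t (d⁻¹ b).1) * W t d⁻¹ * e := by
          rw [S.ar _ (by omega) (d⁻¹ b).2 hN, smul_mul_assoc, smul_mul_assoc]
      _ = A * W t d⁻¹ * (t b.1 * e) := by
          rw [mul_assoc A, e1]; simp only [mul_assoc]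
      _ = x • (A * W t d⁻¹ * e) := by
          rw [S.el _ (by omega) b.2 hb, mul_smul_comm]
  rw [← sub_eq_zero, ← sub_smul, smul_eq_zero] at e2
  exact e2.resolve_left (sub_ne_zero.2 S.hxy.symm)

lemma Setup.short (S : Setup n N t z x y J e A γ) : ∀ (k : ℕ) (w : Perm (Fin n)), inv w = k →
    k < inv γ → A * W t w * e = 0 := by
  intro k
  induction k using Nat.strong_induction_on with
  | _ k ih =>
  intro w hw hk
  by_cases h1 : InD (N + 1) w⁻¹
  · by_cases h2 : ∀ a b : Fin n, a.1 + 1 = b.1 → b.1 ∈ J → w a < w b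
    · by_cases h3 : ∀ b : Fin n, 1 ≤ b.1 → b.1 ∈ J → N < (w⁻¹⁻¹ b).1
      · have := S.hU _ h1 h3
        rw [← this, inv_inv'] at hk
        omega
      · push Not at h3
        obtain ⟨b, hb1, hb, hN⟩ := h3
        have hb2 := b.2
        have := S.vanish w⁻¹ h1 ⟨b.1 - 1, by omega⟩ b (by simp only; omega) hb
          (h2 _ _ (by simp only; omega) hb) hN
        rwa [inv_inv] at this
    · push Not at h2
      obtain ⟨a, b, hab, hb, hl⟩ := h2
      have hl' : w b < w a := (lt_or_gt_adj w a b hab).resolve_left (not_lt.2 hl)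
      have := inv_mul_swap' w a b hab hl'
      rw [W_mul_swap' S.ht w a b hab hl', mul_assoc, mul_assoc, S.el _ (by omega) b.2 hb,
        mul_smul_comm, mul_smul_comm, ← mul_assoc, ih _ (by omega) _ rfl (by omega), smul_zero]
  · unfold InD at h1
    push Not at h1
    obtain ⟨a, b, hab, hb, hl⟩ := h1
    have hl' : w⁻¹ b < w⁻¹ a := (lt_or_gt_adj w⁻¹ a b hab).resolve_left (not_lt.2 hl)
    have := inv_swap_mul' w a b hab hl'
    have ih' := ih _ (by omega) (swap a b * w) rfl (by omega)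
    rw [W_swap_mul' S.ht w a b hab hl', ← mul_assoc]
    by_cases hN : b.1 ≤ N
    · rw [S.ar _ (by omega) b.2 hN, smul_mul_assoc, smul_mul_assoc, ih', smul_zero]
    · rw [← S.ac _ (by omega) b.2, mul_assoc, mul_assoc, ← mul_assoc A, ih', mul_zero]

lemma Setup.short_Fil (S : Setup n N t z x y J e A γ) (u : R) (hu : u ∈ Fil t n (inv γ)) :
    A * u * e = 0 := by
  induction hu using Submodule.span_induction with
  | mem u hu =>
    obtain ⟨w, hw, rfl⟩ := hu
    exact S.short _ w rfl hw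
  | zero => simp
  | add u v _ _ hu hv => rw [mul_add, add_mul, hu, hv, add_zero]
  | smul c u _ hu => rw [mul_smul_comm, smul_mul_assoc, hu, smul_zero]

lemma Setup.term (S : Setup n N t z x y J e A γ) : ∀ (k : ℕ) (d : Perm (Fin n)), inv d = k →
    InD (N + 1) d → ∃ p : Polynomial ℕ, e * (W t d * A * W t d⁻¹) * e =
      (Polynomial.aeval x p) • (e * (W t γ * A * W t γ⁻¹) * e) := by
  intro k
  induction k using Nat.strong_induction_on with
  | _ k ih =>
  intro d hd h1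
  by_cases h2 : ∀ a b : Fin n, a.1 + 1 = b.1 → b.1 ∈ J → d⁻¹ a < d⁻¹ b
  · by_cases h3 : ∀ b : Fin n, 1 ≤ b.1 → b.1 ∈ J → N < (d⁻¹ b).1
    · have := S.hU _ h1 h3
      exact ⟨1, by rw [this]; simp⟩
    · push Not at h3
      obtain ⟨b, hb1, hb, hN⟩ := h3
      have hb2 := b.2
      have := S.vanish d h1 ⟨b.1 - 1, by omega⟩ b (by simp only; omega) hb
        (h2 _ _ (by simp only; omega) hb) hN
      refine ⟨0, ?_⟩
      rw [map_zero, zero_smul, mul_assoc, mul_assoc, mul_assoc, ← mul_assoc A, this]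
      simp
  · push Not at h2
    obtain ⟨a, b, hab, hb, hl⟩ := h2
    have hl' : d⁻¹ b < d⁻¹ a := (lt_or_gt_adj d⁻¹ a b hab).resolve_left (not_lt.2 hl)
    have := inv_swap_mul' d a b hab hl'
    have hD : InD (N + 1) (swap a b * d) := by
      by_contra hn
      obtain ⟨a', b', h', _, ha, hb⟩ := not_InD h1 a b hab hn
      have e1 : d⁻¹ a = a' := by rw [← ha]; simp
      have e2 : d⁻¹ b = b' := by rw [← hb]; simp
      rw [e1, e2, Fin.lt_def] at hl'
      omega
    obtain ⟨p, hp⟩ := ih _ (by omega) (swap a b * d) rfl hD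
    refine ⟨Polynomial.X * Polynomial.X * p, ?_⟩
    rw [mul_inv_rev, swap_inv] at hp
    rw [W_swap_mul' S.ht d a b hab hl', W_mul_swap' S.ht d⁻¹ a b hab hl', map_mul, map_mul,
      Polynomial.aeval_X, mul_smul, mul_smul, ← hp]
    have e1 := S.el _ (by omega) b.2 hb
    have e2 := S.er _ (by omega) b.2 hb
    calc _ = (e * t b.1) * (W t (swap a b * d) * A * W t (d⁻¹ * swap a b)) * (t b.1 * e) := by
          simp only [mul_assoc]
      _ = _ := by
          rw [e1, e2]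
          simp only [mul_smul_comm, smul_mul_assoc]

lemma Setup.sum (S : Setup n N t z x y J e A γ) : ∃ p : Polynomial ℕ,
    e * Z t n (N + 1) A * e =
      (1 + Polynomial.aeval x p) • (e * (W t γ * A * W t γ⁻¹) * e) := by
  classical
  unfold Z
  rw [Finset.mul_sum, Finset.sum_mul,
    ← Finset.add_sum_erase _ _ (Finset.mem_filter.2 ⟨Finset.mem_univ γ, S.hD⟩)]
  have : ∃ p : Polynomial ℕ, ∑ d ∈ (Finset.univ.filter (InD (N + 1))).erase γ,
      e * (W t d * A * W t d⁻¹) * e =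
      (Polynomial.aeval x p) • (e * (W t γ * A * W t γ⁻¹) * e) := by
    apply Finset.sum_induction _ (fun u => ∃ p : Polynomial ℕ, u =
      (Polynomial.aeval x p) • (e * (W t γ * A * W t γ⁻¹) * e))
    · rintro _ _ ⟨p, rfl⟩ ⟨p', rfl⟩
      exact ⟨p + p', by rw [map_add, add_smul]⟩
    · exact ⟨0, by simp⟩
    · intro d hd
      exact S.term _ d rfl (Finset.mem_filter.1 (Finset.mem_of_mem_erase hd)).2
  obtain ⟨p, hp⟩ := this
  refine ⟨p, ?_⟩
  rw [add_smul, one_smul, ← hp]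

lemma Setup.Z_comm (S : Setup n N t z x y J e A γ) (i : ℕ) (h1 : 1 ≤ i) (h2 : i < n) :
    t i * Z t n (N + 1) A = Z t n (N + 1) A * t i := by
  apply _root_.Pool.Agent.Lib.MP_613bd6_al.Z_comm S.ht S.hq _ _ _ i h1 h2
  intro j h1 h2 h3
  by_cases hN : j ≤ N
  · rw [S.al j h1 h2 hN, S.ar j h1 h2 hN]
  · exact S.ac j (by omega) h2

lemma Setup.X_eq (S : Setup n N t z x y J e A γ) (l : List ℕ) (hl : IsWord n γ l)
    (hlen : l.length = inv γ) :
    e * (l.map t).prod * A * Ring.inverse (l.map t).prod * e = e * (W t γ * A * W t γ⁻¹) * e := by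
  rw [ring_inverse_prod S.hq l hl.1, ← W_eq S.ht hl hlen,
    W_eq S.ht hl.reverse (by rw [List.length_reverse, inv_inv', hlen])]
  have h := (prod_mem_Fil S.ht S.hq l.reverse hl.reverse.1).2
  rw [List.length_reverse, hlen] at h
  have := S.short_Fil _ h
  rw [mul_sub, sub_mul, sub_eq_zero] at this
  simp only [mul_assoc] at this ⊢
  rw [this]

end Pool.Agent.Lib.MP_613bd6_al
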