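import Mathlib

namespace Pool.Agent.Lib.MP_613bd6_al

open Equiv

/-- The ground field `ℂ(q)`. -/
abbrev K : Type := RatFunc ℂ

/-- The indeterminate `q`. -/
noncomputable def q : K := RatFunc.X

/-- Indices `1, …, n-1` of the generators. -/
abbrev Gen (n : ℕ) : Type := {i : ℕ // 1 ≤ i ∧ i < n}

/-- The defining relations of the Hecke algebra `H(S_n)`. -/
inductive Rel (n : ℕ) : FreeAlgebra K (Gen n) → FreeAlgebra K (Gen n) → Prop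
  | braid (i j : Gen n) (h : j.1 = i.1 + 1) :
      Rel n (FreeAlgebra.ι K i * FreeAlgebra.ι K j * FreeAlgebra.ι K i)
        (FreeAlgebra.ι K j * FreeAlgebra.ι K i * FreeAlgebra.ι K j)
  | comm (i j : Gen n) (h : i.1 + 1 < j.1) :
      Rel n (FreeAlgebra.ι K i * FreeAlgebra.ι K j) (FreeAlgebra.ι K j * FreeAlgebra.ι K i)
  | quad (i : Gen n) :
      Rel n ((FreeAlgebra.ι K i - algebraMap K _ q) * (FreeAlgebra.ι K i + algebraMap K _ q⁻¹)) 0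

/-- The Hecke algebra `H(S_n)`: the free `K`-algebra on `T_1, …, T_{n-1}` modulo `Rel n`. -/
abbrev Hecke (n : ℕ) : Type := RingQuot (Rel n)

/-- The generator `T_i` of `H(S_n)` for `1 ≤ i ≤ n-1` (junk value `1` otherwise). -/
noncomputable def T (n i : ℕ) : Hecke n :=
  if h : 1 ≤ i ∧ i < n then RingQuot.mkAlgHom K (Rel n) (FreeAlgebra.ι K ⟨i, h⟩) else 1

/-- The simple transposition `s_i = (i, i+1)` of `S_n` for `1 ≤ i ≤ n-1`; the points `1, …, n`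
are the elements `0, …, n-1` of `Fin n` (junk value `1` otherwise). -/
def s (n i : ℕ) : Perm (Fin n) :=
  if h : 1 ≤ i ∧ i < n then swap ⟨i - 1, by omega⟩ ⟨i, h.2⟩ else 1

/-- `l = [i_1, …, i_k]` has letters in `{1, …, n-1}` and `σ = s_{i_1} ⋯ s_{i_k}`. -/
def IsWord (n : ℕ) (σ : Perm (Fin n)) (l : List ℕ) : Prop :=
  (∀ i ∈ l, 1 ≤ i ∧ i < n) ∧ (l.map (s n)).prod = σ

/-- Coxeter length: the least length of a word for `σ`. -/
noncomputable def len (n : ℕ) (σ : Perm (Fin n)) : ℕ :=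
  sInf {k | ∃ l, IsWord n σ l ∧ l.length = k}

/-- A reduced word for `σ`. -/
noncomputable def redWord (n : ℕ) (σ : Perm (Fin n)) : List ℕ :=
  Classical.epsilon fun l => IsWord n σ l ∧ l.length = len n σ

/-- `T_σ = T_{i_1} ⋯ T_{i_k}` for `σ ∈ S_r` with reduced word `s_{i_1} ⋯ s_{i_k}`, computed in
`H(S_n)` (so for `r ≤ n` this is the image of `T_σ ∈ H(S_r)` under `T_i ↦ T_i`). -/
noncomputable def Tw (n r : ℕ) (σ : Perm (Fin r)) : Hecke n :=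
  ((redWord r σ).map (T n)).prod

/-- `m_k = μ_1 + ⋯ + μ_k`; the parts `μ_1, …, μ_{N+1}` are `μ 0, …, μ N`. -/
def m {N : ℕ} (μ : Fin (N + 1) → ℕ) (k : ℕ) : ℕ :=
  ∑ j : Fin (N + 1) with j.1 < k, μ j

/-- `J = {1, …, n-1} ∖ {m_1, …, m_N}` with `n = μ_1 + ⋯ + μ_{N+1}`. -/
def J {N : ℕ} (μ : Fin (N + 1) → ℕ) : Set ℕ :=
  {i | 1 ≤ i ∧ i < ∑ j, μ j ∧ ∀ k, 1 ≤ k → k ≤ N → i ≠ m μ k}

/-- The Young subgroup `S_μ`, generated by the `s_i` with `i ∈ J`. -/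
def Smu {N : ℕ} (μ : Fin (N + 1) → ℕ) : Subgroup (Perm (Fin (∑ j, μ j))) :=
  Subgroup.closure (s (∑ j, μ j) '' J μ)

open Classical in
/-- The idempotent `e_μ`. -/
noncomputable def e {N : ℕ} (μ : Fin (N + 1) → ℕ) : Hecke (∑ j, μ j) :=
  (∑ σ : Perm (Fin (∑ j, μ j)) with σ ∈ Smu μ, q ^ (2 * len _ σ))⁻¹ •
    ∑ σ : Perm (Fin (∑ j, μ j)) with σ ∈ Smu μ, q ^ len _ σ • Tw (∑ j, μ j) _ σ

/-- `T_{γ_μ} = ∏_{k=1}^N (T_{m_k} T_{m_k - 1} ⋯ T_{k+1})`. -/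
noncomputable def Tgamma {N : ℕ} (μ : Fin (N + 1) → ℕ) : Hecke (∑ j, μ j) :=
  ((List.range' 1 N).map fun k =>
    (((List.range' (k + 1) (m μ k - k)).reverse).map (T (∑ j, μ j))).prod).prod

/-- The unnormalised `q`-antisymmetriser `A_{N+1}`, viewed in `H(S_n)`. -/
noncomputable def A (n N : ℕ) : Hecke n :=
  ∑ σ : Perm (Fin (N + 1)),
    ((-1 : K) ^ len _ σ * q ^ (((N * (N + 1) / 2 : ℕ) : ℤ) - (len _ σ : ℤ))) • Tw n (N + 1) σ

/-- `X^μ_N = e_μ T_γ A_{N+1} T_γ⁻¹ e_μ`. -/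
noncomputable def X {N : ℕ} (μ : Fin (N + 1) → ℕ) : Hecke (∑ j, μ j) :=
  e μ * Tgamma μ * A (∑ j, μ j) N * Ring.inverse (Tgamma μ) * e μ

end Pool.Agent.Lib.MP_613bd6_al
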