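import Pool.Agent.Lib.MP_613bd6_al.Core

namespace Pool.Agent.Lib.MP_613bd6_al

open Equiv

variable {n N : ℕ}

lemma InD_unique (hN : N < n) (M : Finset (Fin n)) (hM : M.card ≤ N + 1) (d d' : Perm (Fin n))
    (hd : InD (N + 1) d) (hd' : InD (N + 1) d') (h : ∀ a : Fin n, a.1 ≤ N → d a ∈ M)
    (h' : ∀ a : Fin n, a.1 ≤ N → d' a ∈ M) : d' = d := by
  classical
  have img : ∀ f : Perm (Fin n), (∀ a : Fin n, a.1 ≤ N → f a ∈ M) →
      ∀ b ∈ M, (f⁻¹ b).1 ≤ N := by
    intro f hf b hb
    have hsub : (Finset.Iic (⟨N, hN⟩ : Fin n)).image f ⊆ M := by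
      intro c hc
      obtain ⟨a, ha, rfl⟩ := Finset.mem_image.1 hc
      exact hf a (by simpa [Fin.le_def] using ha)
    have := Finset.eq_of_subset_of_card_le hsub (by
      rw [Finset.card_image_of_injective _ f.injective, Fin.card_Iic]; exact hM)
    rw [← this] at hb
    obtain ⟨a, ha, rfl⟩ := Finset.mem_image.1 hb
    simpa [Fin.le_def] using ha
  have m1 : ∀ f : Perm (Fin n), InD (N + 1) f → ∀ a b : Fin n, a < b → b.1 ≤ N → f a < f b :=
    fun f hf a b hab hb => lt_of_adj' f 0 N (fun a b h1 _ h3 => hf a b h1 (by omega)) a b hab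
      (Nat.zero_le _) hb
  have m2 : ∀ f : Perm (Fin n), InD (N + 1) f → ∀ a b : Fin n, a < b → N + 1 ≤ a.1 → f a < f b :=
    fun f hf a b hab ha => lt_of_adj' f (N + 1) n (fun a b h1 h2 _ => hf a b h1 (by omega)) a b hab
      ha b.2.le
  have p1 : ∀ a : Fin n, a.1 ≤ N → (d⁻¹ (d' a)).1 ≤ N := fun a ha => img d h _ (h' a ha)
  have p2 : ∀ a : Fin n, N + 1 ≤ a.1 → N + 1 ≤ (d⁻¹ (d' a)).1 := by
    intro a ha
    by_contra hn
    have h1 := h _ (show (d⁻¹ (d' a)).1 ≤ N by omega)
    have e1 : d (d⁻¹ (d' a)) = d' a := by simp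
    rw [e1] at h1
    have h2 := img d' h' _ h1
    have e2 : d'⁻¹ (d' a) = a := by simp
    rw [e2] at h2
    omega
  have : d⁻¹ * d' = 1 := by
    apply eq_one_of_adj
    intro a b hab
    simp only [Perm.mul_apply]
    have e1 : d (d⁻¹ (d' a)) = d' a := by simp
    have e2 : d (d⁻¹ (d' b)) = d' b := by simp
    have hab' : a < b := by rw [Fin.lt_def]; omega
    rcases lt_or_gt_adj (d⁻¹ * d') a b hab with h1 | h1
    · exact h1
    · exfalso
      simp only [Perm.mul_apply] at h1
      by_cases hb : b.1 ≤ N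
      · have := m1 d hd _ _ h1 (p1 a (by omega))
        rw [e1, e2] at this
        exact absurd (m1 d' hd' a b hab' hb) (not_lt.2 this.le)
      · by_cases ha : a.1 ≤ N
        · have := p1 a ha
          have := p2 b (by omega)
          rw [Fin.lt_def] at h1
          omega
        · have := m2 d hd _ _ h1 (p2 b (by omega))
          rw [e1, e2] at this
          exact absurd (m2 d' hd' a b hab' (by omega)) (not_lt.2 this.le)
  rw [inv_mul_eq_one] at this
  exact this.symm

lemma s_val (i : ℕ) (h : 1 ≤ i ∧ i < n) (r : Fin n) :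
    (s n i r).1 = if r.1 = i - 1 then i else if r.1 = i then i - 1 else r.1 := by
  unfold s
  rw [dif_pos h, swap_val]

lemma prod_fix (l : List ℕ) (hl : ∀ i ∈ l, 1 ≤ i ∧ i < n) (r : Fin n)
    (hr : ∀ i ∈ l, r.1 ≠ i ∧ r.1 + 1 ≠ i) : (l.map (s n)).prod r = r := by
  induction l with
  | nil => simp
  | cons i l ih =>
    rw [List.map_cons, List.prod_cons, Perm.mul_apply,
      ih (fun j hj => hl j (List.mem_cons_of_mem _ hj)) (fun j hj => hr j (List.mem_cons_of_mem _ hj))]
    ext
    have h1 := hl i List.mem_cons_self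
    have h2 := hr i List.mem_cons_self
    rw [s_val i h1]
    split_ifs <;> omega

lemma cyc_apply (k : ℕ) (r : Fin n) (hr : r.1 = k) : ∀ j : ℕ, k + j < n →
    ((((List.range' (k + 1) j).reverse).map (s n)).prod r).1 = k + j := by
  intro j
  induction j with
  | zero => intro _; simp [hr]
  | succ j ih =>
    intro hj
    rw [List.range'_concat, List.reverse_append, List.reverse_singleton, List.singleton_append,
      List.map_cons, List.prod_cons, Perm.mul_apply, s_val _ (by omega), ih (by omega)]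
    split_ifs <;> omega

/-- sum of the values at the first `N+1` points -/
def psi (N : ℕ) (g : Perm (Fin n)) : ℕ := ∑ a : Fin n with a.1 ≤ N, (g a).1

lemma psi_swap_mul (g : Perm (Fin n)) (a b : Fin n) (h : a.1 + 1 = b.1) :
    psi N (swap a b * g) ≤ psi N g + 1 := by
  unfold psi
  have h1 : ∑ x : Fin n with x.1 ≤ N, (if x = g⁻¹ a then 1 else 0) ≤ 1 := by
    rw [Finset.sum_ite_eq']
    split_ifs <;> omega
  refine le_trans ?_ (Nat.add_le_add_left h1 _)
  rw [← Finset.sum_add_distrib]
  apply Finset.sum_le_sum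
  intro x _
  rw [Perm.mul_apply, swap_val]
  by_cases hx : x = g⁻¹ a
  · have : g x = a := by rw [hx]; simp
    rw [if_pos hx, this, if_pos rfl]; omega
  · have : (g x).1 ≠ a.1 := by
      intro hh
      apply hx
      rw [← Fin.ext hh]; simp
    rw [if_neg hx, if_neg this]
    split_ifs <;> omega

lemma psi_le (g : Perm (Fin n)) : psi N g ≤ psi N (1 : Perm (Fin n)) + inv g := by
  obtain ⟨l, hl, hl2⟩ := exists_reduced g
  rw [← hl2]
  clear hl2
  induction l generalizing g with
  | nil => have := hl.2; simp at this; subst this; simp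
  | cons i l ih =>
    obtain ⟨a, b, hab, rfl, h'⟩ := hl.of_cons
    have h1 := ih _ h'
    have h2 := psi_swap_mul (N := N) (swap a b * g) a b hab
    rw [← mul_assoc, swap_mul_self, one_mul] at h2
    simp only [List.length_cons]
    omega

variable (μ : Fin (N + 1) → ℕ)

lemma m_zero : m μ 0 = 0 := by simp [m]

lemma m_succ (k : ℕ) (hk : k ≤ N) : m μ (k + 1) = m μ k + μ ⟨k, by omega⟩ := by
  unfold m
  have : (Finset.univ.filter fun j : Fin (N + 1) => j.1 < k + 1) =
      insert ⟨k, by omega⟩ (Finset.univ.filter fun j : Fin (N + 1) => j.1 < k) := by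
    ext j
    simp only [Finset.mem_filter, Finset.mem_univ, true_and, Finset.mem_insert, Fin.ext_iff]
    omega
  rw [this, Finset.sum_insert (by simp), add_comm]

lemma m_top : m μ (N + 1) = ∑ j, μ j := by
  unfold m
  rw [Finset.filter_true_of_mem (fun j _ => j.2)]

variable {μ}

lemma m_lt (hμ : ∀ j, 0 < μ j) (k : ℕ) : ∀ j, k + j + 1 ≤ N + 1 → m μ k + j < m μ (k + j + 1) := by
  intro j
  induction j with
  | zero =>
    intro h
    have := hμ ⟨k, by omega⟩
    rw [add_zero, add_zero, m_succ μ k (by omega)]; omega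
  | succ j ih =>
    intro h
    have := ih (by omega)
    have := hμ ⟨k + j + 1, by omega⟩
    rw [← add_assoc k j 1, m_succ μ (k + j + 1) (by omega)]; omega

lemma m_lt' (hμ : ∀ j, 0 < μ j) (k j : ℕ) (h : k < j) (hj : j ≤ N + 1) :
    m μ k + (j - k) ≤ m μ j := by
  have := m_lt hμ k (j - k - 1) (by omega)
  rw [show k + (j - k - 1) + 1 = j by omega] at this
  omega

lemma le_m (hμ : ∀ j, 0 < μ j) (j : ℕ) (hj : j ≤ N + 1) : j ≤ m μ j := by
  rcases Nat.eq_zero_or_pos j with rfl | h
  · omega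
  · have := m_lt' hμ 0 j h hj
    omega

lemma m_lt_n (hμ : ∀ j, 0 < μ j) (j : ℕ) (hj : j ≤ N) : m μ j < ∑ j, μ j := by
  have := m_lt' hμ j (N + 1) (by omega) le_rfl
  rw [m_top] at this
  omega

/-- the word of `γ` up to stage `M` -/
def lg (μ : Fin (N + 1) → ℕ) (M : ℕ) : List ℕ :=
  (List.range' 1 M).flatMap fun k => (List.range' (k + 1) (m μ k - k)).reverse

lemma lg_succ (M : ℕ) :
    lg μ (M + 1) = lg μ M ++ (List.range' (M + 1 + 1) (m μ (M + 1) - (M + 1))).reverse := by
  unfold lg
  rw [List.range'_concat, List.flatMap_append]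
  simp [add_comm]

lemma lg_prod {R : Type*} [Monoid R] (t : ℕ → R) (M : ℕ) : ((lg μ M).map t).prod =
    ((List.range' 1 M).map fun k =>
      (((List.range' (k + 1) (m μ k - k)).reverse).map t).prod).prod := by
  induction M with
  | zero => simp [lg]
  | succ M ih =>
    rw [lg_succ, List.map_append, List.prod_append, ih, List.range'_concat, List.map_append,
      List.prod_append]
    simp [add_comm]

lemma lg_spec (hμ : ∀ j, 0 < μ j) (M : ℕ) (hM : M ≤ N) :
    (∀ i ∈ lg μ M, 1 ≤ i ∧ i ≤ m μ M) ∧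
    (∀ r : Fin (∑ j, μ j), r.1 ≤ M → (((lg μ M).map (s _)).prod r).1 = m μ r.1) ∧
    (lg μ M).length + ∑ k ∈ Finset.range (M + 1), k = ∑ k ∈ Finset.range (M + 1), m μ k := by
  induction M with
  | zero =>
    refine ⟨by simp [lg], ?_, by simp [lg, m_zero]⟩
    intro r hr
    have : r.1 = 0 := by omega
    simp [lg, this, m_zero]
  | succ M ih =>
    obtain ⟨i1, i2, i3⟩ := ih (by omega)
    have h1 := m_lt' hμ M (M + 1) (by omega) (by omega)
    have h2 := le_m hμ (M + 1) (by omega)
    have h3 := m_lt_n hμ (M + 1) hM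
    have hc : ∀ i ∈ (List.range' (M + 1 + 1) (m μ (M + 1) - (M + 1))).reverse,
        M + 2 ≤ i ∧ i ≤ m μ (M + 1) := by
      intro i hi
      rw [List.mem_reverse, List.mem_range'_1] at hi
      omega
    rw [lg_succ]
    refine ⟨?_, ?_, ?_⟩
    · intro i hi
      rcases List.mem_append.1 hi with hi | hi
      · have := i1 i hi; omega
      · have := hc i hi; omega
    · intro r hr
      rw [List.map_append, List.prod_append, Perm.mul_apply]
      by_cases hr' : r.1 ≤ M
      · rw [prod_fix _ (fun i hi => by have := hc i hi; omega) r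
          (fun i hi => by have := hc i hi; omega), i2 r hr']
      · have e1 := cyc_apply (M + 1) r (by omega) (m μ (M + 1) - (M + 1)) (by omega)
        rw [prod_fix _ (fun i hi => by have := i1 i hi; omega) _
          (fun i hi => by have := i1 i hi; omega), e1, show r.1 = M + 1 by omega]
        omega
    · rw [List.length_append, List.length_reverse, List.length_range',
        Finset.sum_range_succ _ (M + 1), Finset.sum_range_succ _ (M + 1)]
      omega

/-- the permutation `γ` -/
def gam (μ : Fin (N + 1) → ℕ) : Perm (Fin (∑ j, μ j)) := ((lg μ N).map (s _)).prod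

lemma gam_word (hμ : ∀ j, 0 < μ j) : IsWord _ (gam μ) (lg μ N) :=
  ⟨fun i hi => by
    have := (lg_spec hμ N le_rfl).1 i hi
    have := m_lt_n hμ N le_rfl
    omega, rfl⟩

lemma sum_filter_le (hN : N < n) (f : ℕ → ℕ) :
    ∑ a : Fin n with a.1 ≤ N, f a.1 = ∑ k ∈ Finset.range (N + 1), f k := by
  rw [Finset.sum_filter, Fin.sum_univ_eq_sum_range (fun k => if k ≤ N then f k else 0) n,
    ← Finset.sum_filter]
  congr 1
  ext k
  simp only [Finset.mem_filter, Finset.mem_range]
  omega

lemma length_le_inv (hμ : ∀ j, 0 < μ j) (g : Perm (Fin (∑ j, μ j)))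
    (hg : ∀ r : Fin (∑ j, μ j), r.1 ≤ N → (g r).1 = m μ r.1) : (lg μ N).length ≤ inv g := by
  have hN : N < ∑ j, μ j := by
    have := m_lt_n hμ N le_rfl
    have := le_m hμ N (by omega)
    omega
  have h1 := psi_le (N := N) g
  have h2 : psi N g = ∑ k ∈ Finset.range (N + 1), m μ k := by
    rw [← sum_filter_le hN]
    exact Finset.sum_congr rfl fun a ha => hg a (Finset.mem_filter.1 ha).2
  have h3 : psi N (1 : Perm (Fin (∑ j, μ j))) = ∑ k ∈ Finset.range (N + 1), k := by
    rw [← sum_filter_le hN (fun k => k)]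
    rfl
  have := (lg_spec hμ N le_rfl).2.2
  omega

lemma gam_val (hμ : ∀ j, 0 < μ j) (r : Fin (∑ j, μ j)) (hr : r.1 ≤ N) :
    (gam μ r).1 = m μ r.1 := (lg_spec hμ N le_rfl).2.1 r hr

lemma gam_len (hμ : ∀ j, 0 < μ j) : (lg μ N).length = inv (gam μ) :=
  le_antisymm (length_le_inv hμ _ (gam_val hμ)) (gam_word hμ).inv_le

lemma gam_InD (hμ : ∀ j, 0 < μ j) : InD (N + 1) (gam μ) := by
  intro a b hab hb
  by_cases hN : b.1 ≤ N
  · rw [Fin.lt_def, gam_val hμ a (by omega), gam_val hμ b hN]
    have := m_lt' hμ a.1 b.1 (by omega) (by omega)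
    omega
  · rcases lt_or_gt_adj (gam μ) a b hab with h | h
    · exact h
    · exfalso
      have h1 := inv_mul_swap' _ a b hab h
      have h2 := length_le_inv hμ (gam μ * swap a b) (fun r hr => by
        rw [Perm.mul_apply, swap_fix a b r (by omega) (by omega), gam_val hμ r hr])
      have h3 := gam_len hμ
      omega

lemma gam_unique (hμ : ∀ j, 0 < μ j) (d : Perm (Fin (∑ j, μ j))) (hd : InD (N + 1) d)
    (h : ∀ b : Fin (∑ j, μ j), 1 ≤ b.1 → b.1 ∈ J μ → N < (d⁻¹ b).1) : d = gam μ := by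
  classical
  have hN : N < ∑ j, μ j := by
    have := m_lt_n hμ N le_rfl
    have := le_m hμ N (by omega)
    omega
  let M : Finset (Fin (∑ j, μ j)) :=
    Finset.univ.image fun k : Fin (N + 1) => ⟨m μ k.1, m_lt_n hμ k.1 (by omega)⟩
  have hM : ∀ (b : Fin (∑ j, μ j)) (k : ℕ), k ≤ N → b.1 = m μ k → b ∈ M := fun b k hk hb =>
    Finset.mem_image.2 ⟨⟨k, by omega⟩, Finset.mem_univ _, Fin.ext hb.symm⟩
  apply InD_unique hN M (le_trans Finset.card_image_le (by simp)) _ _ (gam_InD hμ) hd
  · intro a ha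
    exact hM _ a.1 ha (gam_val hμ a ha)
  · intro a ha
    by_cases h0 : (d a).1 = 0
    · exact hM _ 0 (Nat.zero_le _) (by rw [h0, m_zero])
    · by_contra hn
      have := h (d a) (by omega) ⟨by omega, (d a).2, fun k _ hk he => hn (hM _ k hk he)⟩
      have e : d⁻¹ (d a) = a := by simp
      rw [e] at this
      omega

end Pool.Agent.Lib.MP_613bd6_al
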