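import Pool.Agent.Lib.MP_613bd6_al.Defs

namespace Pool.Agent.Lib.MP_613bd6_al

open Equiv

variable {n : ℕ}

/-- Number of inversions. -/
def inv (σ : Perm (Fin n)) : ℕ :=
  ∑ p : Fin n × Fin n, if p.1 < p.2 ∧ σ p.2 < σ p.1 then 1 else 0

lemma swap_val (a b x : Fin n) :
    ((swap a b x : Fin n) : ℕ) = if x.1 = a.1 then b.1 else if x.1 = b.1 then a.1 else x.1 := by
  rw [swap_apply_def]
  simp only [Fin.ext_iff]
  split_ifs <;> rfl

lemma s_eq (a b : Fin n) (h : a.1 + 1 = b.1) : s n b.1 = swap a b := by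
  unfold s
  rw [dif_pos ⟨by omega, b.2⟩]
  congr 1
  ext; simp; omega

lemma exists_adj (i : ℕ) (h : 1 ≤ i ∧ i < n) : ∃ a b : Fin n, a.1 + 1 = b.1 ∧ b.1 = i :=
  ⟨⟨i - 1, by omega⟩, ⟨i, h.2⟩, by simp; omega, rfl⟩

lemma inv_one : inv (1 : Perm (Fin n)) = 0 := by
  unfold inv
  apply Finset.sum_eq_zero
  intro p _
  rw [if_neg]
  rintro ⟨h1, h2⟩
  exact absurd h1 (not_lt.2 (le_of_lt h2))

lemma inv_inv' (σ : Perm (Fin n)) : inv σ⁻¹ = inv σ := by
  unfold inv
  let f : Fin n × Fin n ≃ Fin n × Fin n := (Equiv.prodCongr σ σ).trans (Equiv.prodComm _ _)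
  rw [← Equiv.sum_comp f]
  apply Finset.sum_congr rfl
  intro p _
  simp [f, and_comm]

lemma inv_mul_swap_aux (σ : Perm (Fin n)) (a b : Fin n) (h : a.1 + 1 = b.1) :
    inv (σ * swap a b) + (if σ b < σ a then 1 else 0) = inv σ + (if σ a < σ b then 1 else 0) := by
  unfold inv
  let f : Fin n × Fin n ≃ Fin n × Fin n := Equiv.prodCongr (swap a b) (swap a b)
  rw [← Equiv.sum_comp f]
  have h1 : (if σ b < σ a then 1 else 0 : ℕ) =
      ∑ p : Fin n × Fin n, if p = (a, b) then (if σ b < σ a then 1 else 0) else 0 := by simp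
  have h2 : (if σ a < σ b then 1 else 0 : ℕ) =
      ∑ p : Fin n × Fin n, if p = (b, a) then (if σ a < σ b then 1 else 0) else 0 := by simp
  rw [h1, h2, ← Finset.sum_add_distrib, ← Finset.sum_add_distrib]
  apply Finset.sum_congr rfl
  rintro ⟨x, y⟩ _
  simp only [f, prodCongr_apply, Prod.map, Perm.mul_apply, swap_apply_self, Prod.mk.injEq]
  by_cases hxy : x = a ∧ y = b
  · obtain ⟨rfl, rfl⟩ := hxy
    have hlt : x < y := by rw [Fin.lt_def]; omega
    have : ¬ (y < x) := not_lt.2 hlt.le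
    have hne : x ≠ y := ne_of_lt hlt
    simp [hlt, this, hne]
  · by_cases hyx : x = b ∧ y = a
    · obtain ⟨rfl, rfl⟩ := hyx
      have hlt : y < x := by rw [Fin.lt_def]; omega
      have : ¬ (x < y) := not_lt.2 hlt.le
      have hne : x ≠ y := ne_of_gt hlt
      simp [hlt, this, hne]
    · rw [if_neg hxy, if_neg hyx]
      have : (swap a b x < swap a b y) ↔ x < y := by
        simp only [Fin.lt_def, swap_val]
        simp only [Fin.ext_iff] at hxy hyx
        split_ifs <;> omega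
      simp only [this]

lemma inv_mul_swap (σ : Perm (Fin n)) (a b : Fin n) (h : a.1 + 1 = b.1) (hl : σ a < σ b) :
    inv (σ * swap a b) = inv σ + 1 := by
  have := inv_mul_swap_aux σ a b h
  rw [if_neg (not_lt.2 hl.le), if_pos hl] at this
  omega

lemma inv_mul_swap' (σ : Perm (Fin n)) (a b : Fin n) (h : a.1 + 1 = b.1) (hl : σ b < σ a) :
    inv (σ * swap a b) + 1 = inv σ := by
  have := inv_mul_swap_aux σ a b h
  rw [if_pos hl, if_neg (not_lt.2 hl.le)] at this
  omega

lemma inv_swap_mul (σ : Perm (Fin n)) (a b : Fin n) (h : a.1 + 1 = b.1) (hl : σ⁻¹ a < σ⁻¹ b) :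
    inv (swap a b * σ) = inv σ + 1 := by
  rw [← inv_inv', mul_inv_rev, swap_inv, inv_mul_swap _ a b h hl, inv_inv']

lemma inv_swap_mul' (σ : Perm (Fin n)) (a b : Fin n) (h : a.1 + 1 = b.1) (hl : σ⁻¹ b < σ⁻¹ a) :
    inv (swap a b * σ) + 1 = inv σ := by
  rw [← inv_inv', mul_inv_rev, swap_inv, inv_mul_swap' _ a b h hl, inv_inv']

lemma lt_or_gt_adj (σ : Perm (Fin n)) (a b : Fin n) (h : a.1 + 1 = b.1) :
    σ a < σ b ∨ σ b < σ a := by
  apply lt_or_gt_of_ne
  intro hh
  have := σ.injective hh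
  rw [this] at h; omega

/-- increasing on adjacent pairs of an interval gives increasing on the interval -/
lemma lt_of_adj (f : Fin n → Fin n) (lo hi : ℕ)
    (h : ∀ a b : Fin n, a.1 + 1 = b.1 → lo ≤ a.1 → b.1 ≤ hi → f a < f b) :
    ∀ (k : ℕ) (a b : Fin n), a.1 + k + 1 = b.1 → lo ≤ a.1 → b.1 ≤ hi → f a < f b := by
  intro k
  induction k with
  | zero => intro a b h1 h2 h3; exact h a b h1 h2 h3
  | succ k ih =>
    intro a b h1 h2 h3
    have hb := b.2
    exact lt_trans (ih a ⟨a.1 + k + 1, by omega⟩ rfl h2 (by simp; omega))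
      (h ⟨a.1 + k + 1, by omega⟩ b (by simp; omega) (by simp; omega) h3)

lemma lt_of_adj' (f : Fin n → Fin n) (lo hi : ℕ)
    (h : ∀ a b : Fin n, a.1 + 1 = b.1 → lo ≤ a.1 → b.1 ≤ hi → f a < f b)
    (a b : Fin n) (hab : a < b) (h1 : lo ≤ a.1) (h2 : b.1 ≤ hi) : f a < f b :=
  lt_of_adj f lo hi h (b.1 - a.1 - 1) a b (by rw [Fin.lt_def] at hab; omega) h1 h2

lemma eq_one_of_adj (σ : Perm (Fin n))
    (h : ∀ a b : Fin n, a.1 + 1 = b.1 → σ a < σ b) : σ = 1 := by
  rw [← Equiv.Perm.monotone_iff]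
  apply StrictMono.monotone
  intro a b hab
  exact lt_of_adj' σ 0 n (fun a b h1 _ _ => h a b h1) a b hab (Nat.zero_le _) b.2.le

lemma IsWord.nil : IsWord n 1 [] := ⟨by simp, by simp⟩

lemma IsWord.cons {σ : Perm (Fin n)} {l : List ℕ} (hl : IsWord n σ l) (a b : Fin n)
    (h : a.1 + 1 = b.1) : IsWord n (swap a b * σ) (b.1 :: l) := by
  refine ⟨?_, ?_⟩
  · intro i hi
    rcases List.mem_cons.1 hi with rfl | hi
    · exact ⟨by omega, b.2⟩
    · exact hl.1 i hi
  · rw [List.map_cons, List.prod_cons, hl.2, s_eq a b h]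

lemma IsWord.of_cons {σ : Perm (Fin n)} {i : ℕ} {l : List ℕ} (hl : IsWord n σ (i :: l)) :
    ∃ a b : Fin n, a.1 + 1 = b.1 ∧ b.1 = i ∧ IsWord n (swap a b * σ) l := by
  obtain ⟨a, b, hab, rfl⟩ := exists_adj i (hl.1 i List.mem_cons_self)
  refine ⟨a, b, hab, rfl, fun j hj => hl.1 j (List.mem_cons_of_mem _ hj), ?_⟩
  rw [← hl.2, List.map_cons, List.prod_cons, s_eq a b hab, ← mul_assoc, swap_mul_self, one_mul]

lemma IsWord.append {σ τ : Perm (Fin n)} {l l' : List ℕ} (hl : IsWord n σ l)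
    (hl' : IsWord n τ l') : IsWord n (σ * τ) (l ++ l') := by
  refine ⟨?_, ?_⟩
  · intro i hi
    rcases List.mem_append.1 hi with hi | hi
    · exact hl.1 i hi
    · exact hl'.1 i hi
  · rw [List.map_append, List.prod_append, hl.2, hl'.2]

lemma IsWord.single (a b : Fin n) (h : a.1 + 1 = b.1) : IsWord n (swap a b) [b.1] := by
  simpa using IsWord.nil.cons a b h

lemma IsWord.reverse {l : List ℕ} : ∀ {σ : Perm (Fin n)}, IsWord n σ l → IsWord n σ⁻¹ l.reverse := by
  induction l with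
  | nil => intro σ h; have := h.2; simp at this; subst this; simpa using IsWord.nil
  | cons i l ih =>
    intro σ h
    obtain ⟨a, b, hab, rfl, h'⟩ := h.of_cons
    have := (ih h').append (IsWord.single a b hab)
    rw [List.reverse_cons]
    convert this using 1
    rw [mul_inv_rev, swap_inv, mul_assoc, swap_mul_self, mul_one]

lemma IsWord.inv_le {l : List ℕ} : ∀ {σ : Perm (Fin n)}, IsWord n σ l → inv σ ≤ l.length := by
  induction l with
  | nil => intro σ h; have := h.2; simp at this; subst this; simp [inv_one]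
  | cons i l ih =>
    intro σ h
    obtain ⟨a, b, hab, rfl, h'⟩ := h.of_cons
    have h1 := ih h'
    rcases lt_or_gt_adj σ⁻¹ a b hab with h2 | h2
    · have := inv_swap_mul σ a b hab h2
      simp; omega
    · have := inv_swap_mul' σ a b hab h2
      simp; omega

lemma exists_reduced (σ : Perm (Fin n)) : ∃ l, IsWord n σ l ∧ l.length = inv σ := by
  induction hk : inv σ generalizing σ with
  | zero =>
    have : σ⁻¹ = 1 := by
      apply eq_one_of_adj
      intro a b hab
      rcases lt_or_gt_adj σ⁻¹ a b hab with h2 | h2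
      · exact h2
      · have := inv_swap_mul' σ a b hab h2
        omega
    rw [inv_eq_one] at this
    subst this
    exact ⟨[], IsWord.nil, rfl⟩
  | succ k ih =>
    by_cases h : ∀ a b : Fin n, a.1 + 1 = b.1 → σ⁻¹ a < σ⁻¹ b
    · have := eq_one_of_adj _ h
      rw [inv_eq_one] at this
      subst this
      rw [inv_one] at hk; omega
    · push Not at h
      obtain ⟨a, b, hab, h⟩ := h
      have h2 : σ⁻¹ b < σ⁻¹ a := (lt_or_gt_adj σ⁻¹ a b hab).resolve_left (not_lt.2 h)
      have := inv_swap_mul' σ a b hab h2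
      obtain ⟨l, hl, hl2⟩ := ih (swap a b * σ) (by omega)
      refine ⟨b.1 :: l, ?_, by simp [hl2]⟩
      have := hl.cons a b hab
      rwa [← mul_assoc, swap_mul_self, one_mul] at this

lemma len_eq_inv (σ : Perm (Fin n)) : len n σ = inv σ := by
  unfold len
  obtain ⟨l, hl, hl2⟩ := exists_reduced σ
  apply le_antisymm
  · exact Nat.sInf_le ⟨l, hl, hl2⟩
  · have : sInf {k | ∃ l, IsWord n σ l ∧ l.length = k} ∈ {k | ∃ l, IsWord n σ l ∧ l.length = k} :=
      Nat.sInf_mem ⟨_, l, hl, hl2⟩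
    obtain ⟨l', h1, h2⟩ := this
    rw [← h2]; exact h1.inv_le

lemma redWord_spec (σ : Perm (Fin n)) :
    IsWord n σ (redWord n σ) ∧ (redWord n σ).length = inv σ := by
  rw [← len_eq_inv]
  apply Classical.epsilon_spec (p := fun l => IsWord n σ l ∧ l.length = len n σ)
  rw [len_eq_inv]
  exact exists_reduced σ

end Pool.Agent.Lib.MP_613bd6_al
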