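import Pool.Agent.Lib.MP_613bd6_al.Gamma

namespace Pool.Agent.Lib.MP_613bd6_al

open Equiv

lemma q_ne : q ≠ 0 := RatFunc.X_ne_zero

lemma T_eq (n i : ℕ) (h1 : 1 ≤ i) (h2 : i < n) :
    T n i = RingQuot.mkAlgHom K (Rel n) (FreeAlgebra.ι K ⟨i, h1, h2⟩) := by
  unfold T; rw [dif_pos ⟨h1, h2⟩]

lemma T_braid (n : ℕ) : Braid n (T n) := by
  constructor
  · intro i h1 h2
    rw [T_eq n i h1 (by omega), T_eq n (i + 1) (by omega) h2]
    simpa only [map_mul] using RingQuot.mkAlgHom_rel K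
      (Rel.braid (n := n) ⟨i, h1, by omega⟩ ⟨i + 1, by omega, h2⟩ rfl)
  · intro i j h1 h2 h3
    rw [T_eq n i h1 (by omega), T_eq n j (by omega) h3]
    simpa only [map_mul] using RingQuot.mkAlgHom_rel K
      (Rel.comm (n := n) ⟨i, h1, by omega⟩ ⟨j, by omega, h3⟩ h2)

lemma quad_aux {R : Type*} [Ring R] [Algebra K R] (t : R)
    (h : (t - algebraMap K R q) * (t + algebraMap K R q⁻¹) = 0) : t * t = 1 + (q - q⁻¹) • t := by
  rw [Algebra.algebraMap_eq_smul_one, Algebra.algebraMap_eq_smul_one] at h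
  simp only [sub_mul, mul_add, mul_smul_comm, smul_mul_assoc, mul_one, one_mul, smul_sub,
    smul_smul, inv_mul_cancel₀ q_ne, one_smul] at h
  rw [sub_smul, ← sub_eq_zero, ← h]
  abel

lemma T_quad (n : ℕ) : Quad n (q - q⁻¹) (T n) := by
  intro i h1 h2
  have := RingQuot.mkAlgHom_rel K (Rel.quad (n := n) ⟨i, h1, h2⟩)
  rw [map_mul, map_sub, map_add, AlgHom.commutes, AlgHom.commutes, map_zero,
    ← T_eq n i h1 h2] at this
  exact quad_aux _ this

lemma central_of_comm (n : ℕ) (x : Hecke n) (h : ∀ i, 1 ≤ i → i < n → T n i * x = x * T n i)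
    (y : Hecke n) : y * x = x * y := by
  obtain ⟨y, rfl⟩ := RingQuot.mkAlgHom_surjective K (Rel n) y
  induction y using FreeAlgebra.induction with
  | grade0 r => rw [AlgHom.commutes, Algebra.commutes]
  | grade1 i => rw [← T_eq n i.1 i.2.1 i.2.2]; exact h i.1 i.2.1 i.2.2
  | mul a b ha hb => rw [map_mul, mul_assoc, hb, ← mul_assoc, ha, mul_assoc]
  | add a b ha hb => rw [map_add, add_mul, mul_add, ha, hb]

lemma one_add_aeval_ne (p : Polynomial ℕ) : 1 + Polynomial.aeval q p ≠ 0 := by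
  have h1 : 1 + Polynomial.aeval q p =
      algebraMap (Polynomial ℂ) K (1 + Polynomial.aeval (Polynomial.X : Polynomial ℂ) p) := by
    rw [map_add, map_one]
    congr 1
    induction p using Polynomial.induction_on' with
    | add p p' hp hp' => rw [map_add, map_add, map_add, hp, hp']
    | monomial k a =>
      rw [Polynomial.aeval_monomial, Polynomial.aeval_monomial, map_mul, map_pow,
        RatFunc.algebraMap_X, eq_natCast, eq_natCast, map_natCast]
      rfl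
  rw [h1]
  intro h
  rw [map_eq_zero_iff _ (RatFunc.algebraMap_injective ℂ)] at h
  have h2 := congrArg (Polynomial.evalRingHom (1 : ℂ)) h
  have h3 := Polynomial.aeval_algHom_apply
      (Polynomial.evalRingHom (1 : ℂ)).toNatAlgHom (Polynomial.X : Polynomial ℂ) p
  have h4 := Polynomial.aeval_algHom_apply (Nat.castRingHom ℂ).toNatAlgHom (1 : ℕ) p
  simp only [RingHom.toNatAlgHom_apply, Polynomial.coe_evalRingHom, Polynomial.eval_X,
    map_add, map_one, map_zero, eq_natCast] at h2 h3 h4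
  rw [← h3, h4] at h2
  exact absurd h2 (by exact_mod_cast (by omega))

lemma q_ne_neg : q ≠ -q⁻¹ := by
  intro h
  apply one_add_aeval_ne (Polynomial.X * Polynomial.X)
  rw [map_mul, Polynomial.aeval_X]
  nth_rewrite 1 [h]
  rw [neg_mul, inv_mul_cancel₀ q_ne]; simp

lemma A_eq (n N : ℕ) : A n N = q ^ (N * (N + 1) / 2) •
    ∑ σ : Perm (Fin (N + 1)), (-q⁻¹) ^ inv σ • W (T n) σ := by
  unfold A
  rw [Finset.smul_sum]
  apply Finset.sum_congr rfl
  intro σ _
  rw [smul_smul, len_eq_inv, zpow_sub₀ q_ne, zpow_natCast, zpow_natCast, neg_pow q⁻¹, inv_pow]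
  congr 1
  ring

variable {N : ℕ} {μ : Fin (N + 1) → ℕ}

open Classical in
lemma e_eq : ∃ c : K, e μ =
    c • ∑ σ : Perm (Fin (∑ j, μ j)) with σ ∈ Smu μ, q ^ inv σ • W (T (∑ j, μ j)) σ := by
  unfold e
  simp only [len_eq_inv]
  exact ⟨_, rfl⟩

lemma setup (hμ : ∀ j, 0 < μ j) : Setup (∑ j, μ j) N (T _) (q - q⁻¹) q (-q⁻¹) (J μ) (e μ)
    (A _ N) (gam μ) := by
  classical
  have hN : N + 1 ≤ ∑ j, μ j := by
    have := m_lt_n hμ N le_rfl
    have := le_m hμ N (by omega)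
    omega
  have hx : q * q = 1 + q * (q - q⁻¹) := by rw [mul_sub, mul_inv_cancel₀ q_ne]; ring
  have hy : (-q⁻¹) * (-q⁻¹) = 1 + (-q⁻¹) * (q - q⁻¹) := by
    rw [mul_sub, neg_mul q⁻¹ q, inv_mul_cancel₀ q_ne]; ring
  refine ⟨T_braid _, T_quad _, q_ne_neg, ?_, ?_, ?_, ?_, ?_, gam_InD hμ, gam_unique hμ⟩
  · intro i h1 h2 hi
    obtain ⟨c, hc⟩ := e_eq (μ := μ)
    obtain ⟨a, b, hab, rfl⟩ := exists_adj i ⟨h1, h2⟩
    rw [hc, mul_smul_comm, sym_left (T_braid _) (T_quad _) q hx _ a b hab, smul_comm]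
    intro σ hσ
    rw [Finset.mem_filter] at hσ ⊢
    exact ⟨Finset.mem_univ _, mul_mem (Subgroup.subset_closure ⟨b.1, hi, s_eq a b hab⟩) hσ.2⟩
  · intro i h1 h2 hi
    obtain ⟨c, hc⟩ := e_eq (μ := μ)
    obtain ⟨a, b, hab, rfl⟩ := exists_adj i ⟨h1, h2⟩
    rw [hc, smul_mul_assoc, sym_right (T_braid _) (T_quad _) q hx _ a b hab, smul_comm]
    intro σ hσ
    rw [Finset.mem_filter] at hσ ⊢
    exact ⟨Finset.mem_univ _, mul_mem hσ.2 (Subgroup.subset_closure ⟨b.1, hi, s_eq a b hab⟩)⟩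
  · intro i h1 h2 hi
    obtain ⟨a, b, hab, rfl⟩ := exists_adj (n := N + 1) i ⟨h1, by omega⟩
    rw [A_eq, mul_smul_comm, sym_left ((T_braid _).mono hN) ((T_quad _).mono hN) _ hy _ a b hab
      (fun _ _ => Finset.mem_univ _), smul_comm]
  · intro i h1 h2 hi
    obtain ⟨a, b, hab, rfl⟩ := exists_adj (n := N + 1) i ⟨h1, by omega⟩
    rw [A_eq, smul_mul_assoc, sym_right ((T_braid _).mono hN) ((T_quad _).mono hN) _ hy _ a b hab
      (fun _ _ => Finset.mem_univ _), smul_comm]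
  · intro i h1 h2
    rw [A_eq]
    apply Commute.eq
    apply Commute.smul_right
    apply Commute.sum_right
    intro σ _
    apply Commute.smul_right
    apply commute_W
    intro j h3 h4
    exact ((T_braid _).cm j i h3 (by omega) h2).symm

lemma W_mul_e (hμ : ∀ j, 0 < μ j) (σ : Perm (Fin (∑ j, μ j))) (hσ : σ ∈ Smu μ) :
    ∃ c : K, W (T (∑ j, μ j)) σ * e μ = c • e μ := by
  have S := setup hμ
  have key : ∀ i ∈ J μ, ∀ τ : Perm (Fin (∑ j, μ j)), (∃ c : K, W (T (∑ j, μ j)) τ * e μ = c • e μ) →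
      ∃ c : K, W (T (∑ j, μ j)) (s _ i * τ) * e μ = c • e μ := by
    rintro i hi τ ⟨c, hc⟩
    obtain ⟨a, b, hab, rfl⟩ := exists_adj i ⟨hi.1, hi.2.1⟩
    rw [s_eq a b hab]
    have e1 := S.el _ hi.1 hi.2.1 hi
    rcases lt_or_gt_adj τ⁻¹ a b hab with h | h
    · rw [W_swap_mul S.ht τ a b hab h, mul_assoc, hc, mul_smul_comm, e1, smul_smul]
      exact ⟨_, rfl⟩
    · have e2 := W_swap_mul' S.ht τ a b hab h
      have e3 : W (T (∑ j, μ j)) (swap a b * τ) =
          T _ b.1 * W (T (∑ j, μ j)) τ - (q - q⁻¹) • W (T (∑ j, μ j)) τ := by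
        conv_rhs => rw [e2, ← mul_assoc, S.hq _ hi.1 hi.2.1, add_mul, one_mul, smul_mul_assoc]
        abel
      rw [e3, sub_mul, mul_assoc, smul_mul_assoc, hc, mul_smul_comm, e1, smul_smul, smul_smul,
        ← sub_smul]
      exact ⟨_, rfl⟩
  unfold Smu at hσ
  induction hσ using Subgroup.closure_induction_left with
  | one => exact ⟨1, by rw [W_one S.ht]; simp⟩
  | mul_left x hx y _ ih =>
    obtain ⟨i, hi, rfl⟩ := hx
    exact key i hi y ih
  | inv_mul_cancel x hx y _ ih =>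
    obtain ⟨i, hi, rfl⟩ := hx
    obtain ⟨a, b, hab, rfl⟩ := exists_adj i ⟨hi.1, hi.2.1⟩
    have := key _ hi y ih
    rw [s_eq a b hab] at this ⊢
    rwa [swap_inv]

lemma e_mul_e (hμ : ∀ j, 0 < μ j) : ∃ c : K, e μ * e μ = c • e μ := by
  classical
  obtain ⟨c, hc⟩ := e_eq (μ := μ)
  have : ∃ c' : K, (∑ σ : Perm (Fin (∑ j, μ j)) with σ ∈ Smu μ,
      q ^ inv σ • W (T (∑ j, μ j)) σ) * e μ = c' • e μ := by
    rw [Finset.sum_mul]
    apply Finset.sum_induction _ (fun u => ∃ c' : K, u = c' • e μ)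
    · rintro _ _ ⟨p, rfl⟩ ⟨p', rfl⟩
      exact ⟨p + p', by rw [add_smul]⟩
    · exact ⟨0, by simp⟩
    · intro σ hσ
      obtain ⟨d, hd⟩ := W_mul_e hμ σ (Finset.mem_filter.1 hσ).2
      rw [smul_mul_assoc, hd, smul_smul]
      exact ⟨_, rfl⟩
  obtain ⟨c', hc'⟩ := this
  refine ⟨c * c', ?_⟩
  nth_rewrite 1 [hc]
  rw [smul_mul_assoc, hc', smul_smul]

theorem X_central (hμ : ∀ j, 0 < μ j) (h : Hecke (∑ j, μ j)) :
    X μ * (e μ * h * e μ) = (e μ * h * e μ) * X μ := by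
  have S := setup hμ
  obtain ⟨p, hp⟩ := S.sum
  obtain ⟨c, hc⟩ := e_mul_e hμ
  have hX : X μ = (1 + Polynomial.aeval q p)⁻¹ •
      (e μ * Z (T _) (∑ j, μ j) (N + 1) (A _ N) * e μ) := by
    rw [hp, smul_smul, inv_mul_cancel₀ (one_add_aeval_ne p), one_smul,
      ← S.X_eq _ (gam_word hμ) (gam_len hμ), lg_prod]
    rfl
  have hZ := central_of_comm _ _ S.Z_comm
  set z := Z (T _) (∑ j, μ j) (N + 1) (A _ N)
  have h3 : e μ * z * e μ = c • (z * e μ) := by
    rw [hZ, mul_assoc, hc, mul_smul_comm]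
  rw [hX, h3, smul_mul_assoc, smul_mul_assoc, mul_smul_comm, mul_smul_comm]
  congr 2
  calc z * e μ * (e μ * h * e μ) = z * ((e μ * e μ) * h * e μ) := by simp only [mul_assoc]
    _ = z * (e μ * h * (e μ * e μ)) := by
        rw [hc]; simp only [smul_mul_assoc, mul_smul_comm]
    _ = _ := by rw [← mul_assoc (e μ * h * e μ), hZ]; simp only [mul_assoc]

end Pool.Agent.Lib.MP_613bd6_al
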