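import Pool.Agent.Lib.MP_613bd6_al.Inv

namespace Pool.Agent.Lib.MP_613bd6_al

open Equiv

variable {n : ℕ} {R : Type*} [Monoid R]

/-- braid relations for `t 1, …, t (n-1)` -/
structure Braid (n : ℕ) (t : ℕ → R) : Prop where
  br : ∀ i, 1 ≤ i → i + 1 < n → t i * t (i + 1) * t i = t (i + 1) * t i * t (i + 1)
  cm : ∀ i j, 1 ≤ i → i + 1 < j → j < n → t i * t j = t j * t i

lemma Braid.mono {t : ℕ → R} (h : Braid n t) {r : ℕ} (hr : r ≤ n) : Braid r t :=
  ⟨fun i h1 h2 => h.br i h1 (by omega), fun i j h1 h2 h3 => h.cm i j h1 h2 (by omega)⟩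

lemma swap_fix (a b x : Fin n) (h1 : x.1 ≠ a.1) (h2 : x.1 ≠ b.1) : swap a b x = x :=
  swap_apply_of_ne_of_ne (fun h => h1 (by rw [h])) (fun h => h2 (by rw [h]))

lemma inv_swap_mul_apply (σ : Perm (Fin n)) (a b x : Fin n) :
    (swap a b * σ)⁻¹ x = σ⁻¹ (swap a b x) := by
  rw [mul_inv_rev, swap_inv, Perm.mul_apply]

lemma desc_of_word {σ : Perm (Fin n)} {l : List ℕ} (a b : Fin n) (hab : a.1 + 1 = b.1)
    (h' : IsWord n (swap a b * σ) l) (hl : l.length + 1 = inv σ) :
    σ⁻¹ b < σ⁻¹ a ∧ l.length = inv (swap a b * σ) := by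
  have h1 := h'.inv_le
  rcases lt_or_gt_adj σ⁻¹ a b hab with h2 | h2
  · have := inv_swap_mul σ a b hab h2
    omega
  · have := inv_swap_mul' σ a b hab h2
    exact ⟨h2, by omega⟩

lemma swap_braid (a b d : Fin n) (hab : a.1 + 1 = b.1) (hbd : b.1 + 1 = d.1) :
    swap a b * swap b d * swap a b = swap b d * swap a b * swap b d := by
  ext x
  simp only [Perm.mul_apply, swap_val]
  split_ifs <;> omega

lemma swap_comm' (a b c d : Fin n) (hab : a.1 + 1 = b.1) (hcd : c.1 + 1 = d.1) (h : b.1 < c.1) :
    swap c d * swap a b = swap a b * swap c d := by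
  ext x
  simp only [Perm.mul_apply, swap_val]
  split_ifs <;> omega

theorem matsumoto {t : ℕ → R} (ht : Braid n t) : ∀ (k : ℕ) (σ : Perm (Fin n)) (l l' : List ℕ),
    inv σ = k → IsWord n σ l → IsWord n σ l' → l.length = k → l'.length = k →
    (l.map t).prod = (l'.map t).prod := by
  intro k
  induction k with
  | zero =>
    intro σ l l' _ _ _ h1 h2
    rw [List.length_eq_zero_iff] at h1 h2
    rw [h1, h2]
  | succ k ih =>
    have key : ∀ (σ : Perm (Fin n)) (i j : ℕ) (l l' : List ℕ), i < j →
        inv σ = k + 1 → IsWord n σ (i :: l) → IsWord n σ (j :: l') → l.length = k →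
        l'.length = k → t i * (l.map t).prod = t j * (l'.map t).prod := by
      intro σ i j l l' hij hσ h1 h2 hl hl'
      obtain ⟨a, b, hab, rfl, h1'⟩ := h1.of_cons
      obtain ⟨c, d, hcd, rfl, h2'⟩ := h2.of_cons
      obtain ⟨d1, e1⟩ := desc_of_word a b hab h1' (by omega)
      obtain ⟨d2, e2⟩ := desc_of_word c d hcd h2' (by omega)
      by_cases hbc : b.1 = c.1
      · have hbc' : b = c := Fin.ext hbc
        subst hbc'
        have s1 : swap a b d = d := swap_fix _ _ _ (by omega) (by omega)
        have s2 : swap b d a = a := swap_fix _ _ _ (by omega) (by omega)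
        have f1 := inv_swap_mul' (swap a b * σ) b d hcd (by
          rw [inv_swap_mul_apply, inv_swap_mul_apply, s1, swap_apply_right]
          exact lt_trans d2 d1)
        have f2 := inv_swap_mul' (swap b d * (swap a b * σ)) a b hab (by
          rw [inv_swap_mul_apply, inv_swap_mul_apply, inv_swap_mul_apply, inv_swap_mul_apply,
            s2, swap_apply_left, swap_apply_left, s1]
          exact d2)
        obtain ⟨w, hw, hw2⟩ := exists_reduced (swap a b * (swap b d * (swap a b * σ)))
        have g1 : IsWord n (swap a b * σ) (d.1 :: b.1 :: w) := by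
          have := (hw.cons a b hab).cons b d hcd
          simpa [← mul_assoc] using this
        have hbr : swap a b * (swap b d * (swap a b * σ)) =
            swap b d * (swap a b * (swap b d * σ)) := by
          simp only [← mul_assoc]
          rw [swap_braid a b d hab hcd]
        have g2 : IsWord n (swap b d * σ) (b.1 :: d.1 :: w) := by
          rw [hbr] at hw
          have := (hw.cons b d hcd).cons a b hab
          simpa [← mul_assoc] using this
        rw [ih _ l _ (by omega) h1' g1 hl (by simp; omega),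
          ih _ l' _ (by omega) h2' g2 hl' (by simp; omega)]
        simp only [List.map_cons, List.prod_cons, ← mul_assoc]
        rw [← hcd, ht.br b.1 (by omega) (by have := d.2; omega)]
      · have s1 : swap a b d = d := swap_fix _ _ _ (by omega) (by omega)
        have s2 : swap a b c = c := swap_fix _ _ _ (by omega) (by omega)
        have f1 := inv_swap_mul' (swap a b * σ) c d hcd (by
          rw [inv_swap_mul_apply, inv_swap_mul_apply, s1, s2]
          exact d2)
        obtain ⟨w, hw, hw2⟩ := exists_reduced (swap c d * (swap a b * σ))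
        have g1 : IsWord n (swap a b * σ) (d.1 :: w) := by
          have := (hw.cons c d hcd)
          simpa [← mul_assoc] using this
        have hbr : (swap c d * (swap a b * σ)) = (swap a b * (swap c d * σ)) := by
          simp only [← mul_assoc]
          rw [swap_comm' a b c d hab hcd (by omega)]
        have g2 : IsWord n (swap c d * σ) (b.1 :: w) := by
          rw [hbr] at hw
          have := (hw.cons a b hab)
          simpa [← mul_assoc] using this
        rw [ih _ l _ (by omega) h1' g1 hl (by simp; omega),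
          ih _ l' _ (by omega) h2' g2 hl' (by simp; omega)]
        simp only [List.map_cons, List.prod_cons, ← mul_assoc]
        rw [ht.cm b.1 d.1 (by omega) (by omega) d.2]
    intro σ l l' hσ h1 h2 hl hl'
    obtain ⟨i, l, rfl⟩ := List.exists_cons_of_length_eq_add_one hl
    obtain ⟨j, l', rfl⟩ := List.exists_cons_of_length_eq_add_one hl'
    simp only [List.length_cons, Nat.add_right_cancel_iff] at hl hl'
    simp only [List.map_cons, List.prod_cons]
    rcases lt_trichotomy i j with hij | rfl | hij
    · exact key σ i j l l' hij hσ h1 h2 hl hl'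
    · obtain ⟨a, b, hab, rfl, h1'⟩ := h1.of_cons
      obtain ⟨c, d, hcd, hd, h2'⟩ := h2.of_cons
      have : d = b := Fin.ext hd
      subst this
      have : c = a := Fin.ext (by omega)
      subst this
      obtain ⟨d1, e1⟩ := desc_of_word c d hab h1' (by omega)
      rw [ih _ l l' (by omega) h1' h2' hl hl']
    · exact (key σ j i l' l hij hσ h2 h1 hl' hl).symm

/-- product of the `t i` along the chosen reduced word -/
noncomputable def W (t : ℕ → R) (σ : Perm (Fin n)) : R := ((redWord n σ).map t).prod

lemma W_eq {t : ℕ → R} (ht : Braid n t) {σ : Perm (Fin n)} {l : List ℕ} (h : IsWord n σ l)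
    (hl : l.length = inv σ) : W t σ = (l.map t).prod :=
  matsumoto ht _ σ _ _ rfl (redWord_spec σ).1 h (redWord_spec σ).2 hl

lemma W_one {t : ℕ → R} (ht : Braid n t) : W t (1 : Perm (Fin n)) = 1 := by
  rw [W_eq ht IsWord.nil (by simp [inv_one])]; simp

lemma W_swap_mul {t : ℕ → R} (ht : Braid n t) (σ : Perm (Fin n)) (a b : Fin n)
    (h : a.1 + 1 = b.1) (hl : σ⁻¹ a < σ⁻¹ b) : W t (swap a b * σ) = t b.1 * W t σ := by
  rw [W_eq ht ((redWord_spec σ).1.cons a b h)
    (by rw [inv_swap_mul σ a b h hl, List.length_cons, (redWord_spec σ).2])]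
  simp [W]

lemma W_mul_swap {t : ℕ → R} (ht : Braid n t) (σ : Perm (Fin n)) (a b : Fin n)
    (h : a.1 + 1 = b.1) (hl : σ a < σ b) : W t (σ * swap a b) = W t σ * t b.1 := by
  rw [W_eq ht ((redWord_spec σ).1.append (IsWord.single a b h))
    (by rw [inv_mul_swap σ a b h hl, List.length_append, (redWord_spec σ).2]; rfl)]
  simp [W]

lemma W_swap_mul' {t : ℕ → R} (ht : Braid n t) (σ : Perm (Fin n)) (a b : Fin n)
    (h : a.1 + 1 = b.1) (hl : σ⁻¹ b < σ⁻¹ a) : W t σ = t b.1 * W t (swap a b * σ) := by
  rw [← W_swap_mul ht (swap a b * σ) a b h, ← mul_assoc, swap_mul_self, one_mul]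
  rw [inv_swap_mul_apply, inv_swap_mul_apply, swap_apply_left, swap_apply_right]
  exact hl

lemma W_mul_swap' {t : ℕ → R} (ht : Braid n t) (σ : Perm (Fin n)) (a b : Fin n)
    (h : a.1 + 1 = b.1) (hl : σ b < σ a) : W t σ = W t (σ * swap a b) * t b.1 := by
  rw [← W_mul_swap ht (σ * swap a b) a b h, mul_assoc, swap_mul_self, mul_one]
  rw [Perm.mul_apply, Perm.mul_apply, swap_apply_left, swap_apply_right]
  exact hl

lemma commute_W {t : ℕ → R} (x : R) (hx : ∀ i, 1 ≤ i → i < n → Commute x (t i))
    (σ : Perm (Fin n)) : Commute x (W t σ) := by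
  unfold W
  apply Commute.list_prod_right
  intro y hy
  obtain ⟨i, hi, rfl⟩ := List.mem_map.1 hy
  exact hx i ((redWord_spec σ).1.1 i hi).1 ((redWord_spec σ).1.1 i hi).2

end Pool.Agent.Lib.MP_613bd6_al
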